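import Pool.Agent.Work.MP_ce2d68_st.Interface

set_option autoImplicit false

open Polynomial Filter Topology
open scoped ComplexConjugate

namespace Pool.Agent.Work.MP_ce2d68_st.helper63

/-- on the unit circle `max (‖z - p‖, t) ≤ ‖z - p (1 + 2 t / ‖p‖)‖` if `‖p‖ ≥ 1` -/
theorem cost_pt (p : ℂ) (t : ℝ) (ht : 0 < t) (hp : 1 ≤ ‖p‖) (z : ℂ) (hz : ‖z‖ = 1) :
    max ‖z - p‖ t ≤ ‖z - p * ((1 + 2 * t / ‖p‖ : ℝ) : ℂ)‖ := by
  have hp0 : (0:ℝ) < ‖p‖ := by linarith
  set x : ℝ := 1 + 2 * t / ‖p‖ with hx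
  have hx1 : 1 ≤ x := by
    have : 0 ≤ 2 * t / ‖p‖ := by positivity
    linarith
  have hpx : ‖p‖ * x = ‖p‖ + 2 * t := by
    rw [hx]; field_simp
  have hq : ‖p * (x : ℂ)‖ = ‖p‖ + 2 * t := by
    rw [norm_mul, Complex.norm_real, Real.norm_eq_abs, abs_of_nonneg (by linarith), hpx]
  apply max_le
  · -- monotone
    have h1 : ‖z - p‖ ^ 2 ≤ ‖z - p * (x : ℂ)‖ ^ 2 := by
      have e1 : ‖z - p‖ ^ 2 = ‖z‖ ^ 2 + ‖p‖ ^ 2 - 2 * (z * conj p).re := by
        rw [← Complex.normSq_eq_norm_sq, Complex.normSq_sub, Complex.normSq_eq_norm_sq,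
          Complex.normSq_eq_norm_sq]
      have e2 : ‖z - p * (x : ℂ)‖ ^ 2 = ‖z‖ ^ 2 + ‖p * (x : ℂ)‖ ^ 2
          - 2 * (z * conj (p * (x : ℂ))).re := by
        rw [← Complex.normSq_eq_norm_sq, Complex.normSq_sub, Complex.normSq_eq_norm_sq,
          Complex.normSq_eq_norm_sq]
      have e3 : (z * conj (p * (x : ℂ))).re = (z * conj p).re * x := by
        rw [map_mul, Complex.conj_ofReal, ← mul_assoc, Complex.re_mul_ofReal]
      have e4 : (z * conj p).re ≤ ‖p‖ := by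
        calc (z * conj p).re ≤ ‖z * conj p‖ := Complex.re_le_norm _
          _ = ‖p‖ := by rw [norm_mul, hz, RCLike.norm_conj, one_mul]
      rw [e1, e2, e3, hq, hz]
      have h3 : (z * conj p).re * (x - 1) ≤ ‖p‖ * (x - 1) :=
        mul_le_mul_of_nonneg_right e4 (by linarith)
      have h4 : ‖p‖ * (x - 1) = 2 * t := by linarith [hpx]
      nlinarith
    exact le_of_sq_le_sq h1 (norm_nonneg _)
  · have h1 : ‖p * (x : ℂ)‖ - ‖z‖ ≤ ‖z - p * (x : ℂ)‖ := by
      rw [norm_sub_rev]; exact norm_sub_norm_le _ _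
    rw [hq, hz] at h1
    linarith

theorem ci_max (p : ℂ) (t : ℝ) (ht : 0 < t) :
    CircleIntegrable (fun z : ℂ => Real.log (max ‖z - p‖ t)) 0 1 := by
  apply ContinuousOn.circleIntegrable (by norm_num)
  apply ContinuousOn.log
  · fun_prop
  · intro z _
    exact (lt_of_lt_of_le ht (le_max_right _ _)).ne'

theorem ci_sub (a : ℂ) : CircleIntegrable (fun z : ℂ => Real.log ‖z - a‖) 0 1 :=
  MeromorphicOn.circleIntegrable_log_norm (fun z _ ↦ by fun_prop)

/-- the main estimate in the case `‖p‖ ≥ 1` -/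
theorem cost_ge (p : ℂ) (t : ℝ) (ht : 0 < t) (hp : 1 ≤ ‖p‖) :
    ca (fun z => Real.log (max ‖z - p‖ t)) ≤ Real.log (‖p‖ + 2 * t) := by
  have hp0 : (0:ℝ) < ‖p‖ := by linarith
  have hq : ‖p * ((1 + 2 * t / ‖p‖ : ℝ) : ℂ)‖ = ‖p‖ + 2 * t := by
    have h0 : 0 ≤ 2 * t / ‖p‖ := by positivity
    rw [norm_mul, Complex.norm_real, Real.norm_eq_abs, abs_of_nonneg (by linarith)]
    field_simp
  have h1 : ca (fun z => Real.log (max ‖z - p‖ t))
      ≤ Real.circleAverage (fun z => Real.log ‖z - p * ((1 + 2 * t / ‖p‖ : ℝ) : ℂ)‖) 0 1 := by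
    apply Real.circleAverage_mono (ci_max p t ht) (ci_sub _)
    intro z hz
    have hz1 : ‖z‖ = 1 := by simpa using hz
    apply Real.log_le_log (lt_of_lt_of_le ht (le_max_right _ _))
    exact cost_pt p t ht hp z hz1
  have h2 := circleAverage_log_norm_sub_const_eq_posLog (a := p * ((1 + 2 * t / ‖p‖ : ℝ) : ℂ))
  rw [hq] at h2
  have h3 : Real.posLog (‖p‖ + 2 * t) = Real.log (‖p‖ + 2 * t) := by
    apply Real.posLog_eq_log
    rw [abs_of_nonneg (by linarith)]
    linarith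
  calc _ ≤ _ := h1
    _ = _ := h2
    _ = _ := h3

theorem log_add_le (x t : ℝ) (hx : 0 < x) (ht : 0 < t) :
    Real.log (x + 2 * t) ≤ Real.log x + 2 * t / x := by
  have h1 : x + 2 * t = x * (1 + 2 * t / x) := by field_simp
  have h2 : 0 < 2 * t / x := by positivity
  rw [h1, Real.log_mul hx.ne' (by linarith)]
  have := Real.log_le_sub_one_of_pos (show (0:ℝ) < 1 + 2 * t / x by linarith)
  linarith

theorem stmt_COST : Stmt_COST := by
  intro p t ht htp
  have hp0 : (0:ℝ) < ‖p‖ := by linarith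
  rcases le_or_gt 1 ‖p‖ with hp | hp
  · have h1 := cost_ge p t ht hp
    have h2 := log_add_le ‖p‖ t hp0 ht
    have h3 : Real.posLog ‖p‖ = Real.log ‖p‖ := Real.posLog_eq_log (by rw [abs_of_nonneg hp0.le]; exact hp)
    rw [h3]; linarith
  · -- inversion
    have hpne : p ≠ 0 := by
      intro h; rw [h, norm_zero] at hp0; exact lt_irrefl _ hp0
    set p' : ℂ := (conj p)⁻¹ with hp'
    have hn' : ‖p'‖ = ‖p‖⁻¹ := by rw [hp', norm_inv, RCLike.norm_conj]
    have h1' : 1 ≤ ‖p'‖ := by rw [hn']; exact (one_le_inv₀ hp0).2 hp.le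
    have ht' : 0 < t / ‖p‖ := by positivity
    have key : ∀ z ∈ Metric.sphere (0:ℂ) |1|, Real.log (max ‖z - p‖ t)
        = Real.log ‖p‖ + Real.log (max ‖z - p'‖ (t / ‖p‖)) := by
      intro z hz
      have hz1 : ‖z‖ = 1 := by simpa using hz
      have e1 : ‖z - p‖ = ‖p‖ * ‖z - p'‖ := by
        -- |z - p| = |1 - p conj z| = |1 - conj p z| = |p| |z - 1/conj p|
        have hzz : z * conj z = 1 := by
          rw [Complex.mul_conj, Complex.normSq_eq_norm_sq, hz1]; norm_num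
        have e2 : z - p = z * conj (1 - conj p * z) := by
          rw [map_sub, map_one, map_mul, Complex.conj_conj]
          linear_combination p * hzz
        have e3 : (1 : ℂ) - conj p * z = - (conj p * (z - p')) := by
          rw [hp', mul_sub, mul_inv_cancel₀ ((_root_.map_ne_zero _).2 hpne)]; ring
        rw [e2, norm_mul, hz1, one_mul, RCLike.norm_conj, e3, norm_neg, norm_mul, RCLike.norm_conj]
      have e4 : max ‖z - p‖ t = ‖p‖ * max ‖z - p'‖ (t / ‖p‖) := by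
        rw [mul_max_of_nonneg _ _ hp0.le, ← e1, mul_div_cancel₀ _ hp0.ne']
      rw [e4, Real.log_mul hp0.ne' (lt_of_lt_of_le ht' (le_max_right _ _)).ne']
    have h2 : ca (fun z => Real.log (max ‖z - p‖ t))
        = Real.log ‖p‖ + ca (fun z => Real.log (max ‖z - p'‖ (t / ‖p‖))) := by
      unfold ca
      rw [Real.circleAverage_congr_sphere (f₂ := fun z => Real.log ‖p‖ + Real.log (max ‖z - p'‖ (t / ‖p‖)))
        key]
      rw [Real.circleAverage_fun_add (circleIntegrable_const _ _ _) (ci_max p' _ ht'),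
        Real.circleAverage_const]
    have h3 := cost_ge p' (t / ‖p‖) ht' h1'
    rw [hn'] at h3
    have h4 : Real.log ‖p‖ + Real.log (‖p‖⁻¹ + 2 * (t / ‖p‖)) = Real.log (1 + 2 * t) := by
      rw [← Real.log_mul hp0.ne' (by positivity)]
      congr 1
      field_simp
    have h5 := Real.log_le_sub_one_of_pos (show (0:ℝ) < 1 + 2 * t by linarith)
    have h6 : 2 * t ≤ 2 * t / ‖p‖ := by
      rw [le_div_iff₀ hp0]
      nlinarith
    have h7 : 0 ≤ Real.posLog ‖p‖ := Real.posLog_nonneg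
    linarith

end Pool.Agent.Work.MP_ce2d68_st.helper63
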