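import Pool.Agent.Work.MP_ce2d68_st.Interface

set_option autoImplicit false

open Polynomial Filter Topology
open scoped ComplexConjugate

namespace Pool.Agent.Work.MP_ce2d68_st.helper63

/-- arguments near 1 -/
theorem arg_one_add (v : ℂ) (s : ℝ) (hs : 0 < s) (hs1 : s ≤ 1 / 16) (hv : ‖v‖ ≤ 3 * s) :
    |(1 + v).arg| ≤ 6 * s ∧ 0 < (1 + v).re ∧ ‖1 + v‖ ≤ 2 ∧ |(1 + v).arg| < Real.pi / 2 ∧
      (1 + v) ≠ 0 := by
  have hre : |v.re| ≤ 3 * s := (Complex.abs_re_le_norm v).trans hv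
  have him : |v.im| ≤ 3 * s := (Complex.abs_im_le_norm v).trans hv
  have h1 : (1 + v).re = 1 + v.re := by simp
  have h2 : (1 + v).im = v.im := by simp
  have hre' := abs_le.1 hre
  have hpos : 13 / 16 ≤ (1 + v).re := by rw [h1]; linarith
  have hn : 13 / 16 ≤ ‖1 + v‖ := hpos.trans (Complex.re_le_norm _)
  have hne : (1 + v) ≠ 0 := by
    intro h; rw [h, norm_zero] at hn; norm_num at hn
  have hn2 : ‖1 + v‖ ≤ 2 := by
    calc ‖1 + v‖ ≤ ‖(1:ℂ)‖ + ‖v‖ := norm_add_le _ _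
      _ ≤ 2 := by rw [norm_one]; linarith
  have hlt : |(1 + v).arg| < Real.pi / 2 := Complex.abs_arg_lt_pi_div_two_iff.2 (Or.inl (by linarith))
  refine ⟨?_, by linarith, hn2, hlt, hne⟩
  -- (2/π) |arg| ≤ sin |arg| = |im| / norm
  have h3 : 2 / Real.pi * |(1 + v).arg| ≤ Real.sin |(1 + v).arg| :=
    Real.mul_le_sin (abs_nonneg _) hlt.le
  have h4 : Real.sin |(1 + v).arg| = |Real.sin (1 + v).arg| := by
    rcases abs_cases (1 + v).arg with ⟨h, h0⟩ | ⟨h, h0⟩
    · rw [h, abs_of_nonneg]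
      apply Real.sin_nonneg_of_nonneg_of_le_pi h0
      have := Complex.arg_le_pi (1 + v); exact this
    · rw [h, Real.sin_neg, abs_of_nonpos]
      apply Real.sin_nonpos_of_nonpos_of_neg_pi_le h0.le
      exact (Complex.neg_pi_lt_arg _).le
  rw [h4, Complex.sin_arg, abs_div, abs_of_nonneg (norm_nonneg _), h2] at h3
  have h5 : |v.im| / ‖1 + v‖ ≤ 3 * s / (13 / 16) := by
    apply div_le_div₀ (by positivity) him (by norm_num) hn
  have hpi := Real.pi_pos
  have h6 : |(1 + v).arg| ≤ Real.pi / 2 * (3 * s / (13 / 16)) := by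
    have h7 : 2 / Real.pi * |(1 + v).arg| ≤ 3 * s / (13 / 16) := h3.trans h5
    calc |(1 + v).arg| = Real.pi / 2 * (2 / Real.pi * |(1 + v).arg|) := by field_simp
      _ ≤ _ := by gcongr
  have h8 := Real.pi_lt_d2
  nlinarith

/-- lower bound for the argument -/
theorem arg_one_add_lower (v : ℂ) (s x : ℝ) (hs : 0 < s) (hs1 : s ≤ 1 / 16) (hv : ‖v‖ ≤ 3 * s)
    (hx : 0 ≤ x) (hi : x ≤ v.im) : x / 2 ≤ (1 + v).arg := by
  obtain ⟨_, hre, hn, hlt, hne⟩ := arg_one_add v s hs hs1 hv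
  have h2 : (1 + v).im = v.im := by simp
  have h0 : 0 ≤ (1 + v).arg := Complex.arg_nonneg_iff.2 (by rw [h2]; linarith)
  have h3 : Real.sin (1 + v).arg ≤ (1 + v).arg := Real.sin_le h0
  rw [Complex.sin_arg, h2] at h3
  have hnp : 0 < ‖1 + v‖ := norm_pos_iff.2 hne
  have h4 : x / 2 ≤ v.im / ‖1 + v‖ := by
    rw [div_le_div_iff₀ (by norm_num) hnp]
    nlinarith
  exact h4.trans h3

theorem arg_one_add_upper (v : ℂ) (s x : ℝ) (hs : 0 < s) (hs1 : s ≤ 1 / 16) (hv : ‖v‖ ≤ 3 * s)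
    (hx : 0 ≤ x) (hi : v.im ≤ -x) : (1 + v).arg ≤ - (x / 2) := by
  have h1 : ‖conj v‖ ≤ 3 * s := by rw [RCLike.norm_conj]; exact hv
  have h2 : x ≤ (conj v).im := by rw [Complex.conj_im]; linarith
  have h3 := arg_one_add_lower (conj v) s x hs hs1 h1 hx h2
  have h4 : (1 + conj v) = conj (1 + v) := by simp
  obtain ⟨_, hre, hn, hlt, hne⟩ := arg_one_add v s hs hs1 hv
  rw [h4, Complex.arg_conj] at h3
  split_ifs at h3 with h5
  · exfalso
    have := (abs_lt.1 hlt).2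
    have := Real.pi_pos
    linarith
  · linarith

/-- the norm inequality satisfied by `v` -/
theorem geo_v (v u : ℂ) (s ρ : ℝ) (hs : 0 < s) (hρ : 1 / 2 ≤ ρ) (hρ1 : ρ < 1) (hu : ‖u‖ = 1)
    (h : ‖v + (((1 - ρ ^ 2) * s / ρ : ℝ) : ℂ) * u‖ ≤ ρ * ‖v‖) :
    ‖v + ((s / ρ : ℝ) : ℂ) * u‖ ≤ s := by
  have hρ0 : 0 < ρ := by linarith
  have key : ∀ x : ℝ, ‖v + (x : ℂ) * u‖ ^ 2 = ‖v‖ ^ 2 + x ^ 2 + 2 * x * (v * conj u).re := by
    intro x
    rw [← Complex.normSq_eq_norm_sq, Complex.normSq_add, Complex.normSq_eq_norm_sq,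
      Complex.normSq_eq_norm_sq, norm_mul, hu, Complex.norm_real, map_mul, Complex.conj_ofReal]
    rw [show v * ((x : ℂ) * conj u) = (v * conj u) * (x : ℂ) by ring, Complex.re_mul_ofReal]
    rw [Real.norm_eq_abs, mul_one, sq_abs]
    ring
  have h1 : ‖v + (((1 - ρ ^ 2) * s / ρ : ℝ) : ℂ) * u‖ ^ 2 ≤ (ρ * ‖v‖) ^ 2 :=
    pow_le_pow_left₀ (norm_nonneg _) h 2
  rw [key] at h1
  have h2 : ‖v + ((s / ρ : ℝ) : ℂ) * u‖ ^ 2 ≤ s ^ 2 := by
    rw [key]
    have hd : 0 < 1 - ρ ^ 2 := by nlinarith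
    -- multiply by 1 - ρ^2
    have e : (1 - ρ ^ 2) * (‖v‖ ^ 2 + (s / ρ) ^ 2 + 2 * (s / ρ) * (v * conj u).re - s ^ 2)
        = (‖v‖ ^ 2 + ((1 - ρ ^ 2) * s / ρ) ^ 2 + 2 * ((1 - ρ ^ 2) * s / ρ) * (v * conj u).re)
          - (ρ * ‖v‖) ^ 2 := by
      field_simp
      ring
    have h3 : (1 - ρ ^ 2) * (‖v‖ ^ 2 + (s / ρ) ^ 2 + 2 * (s / ρ) * (v * conj u).re - s ^ 2) ≤ 0 := by
      rw [e]; linarith
    have h4 : ‖v‖ ^ 2 + (s / ρ) ^ 2 + 2 * (s / ρ) * (v * conj u).re - s ^ 2 ≤ 0 := by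
      by_contra hc
      push Not at hc
      have := mul_pos hd hc
      linarith
    linarith
  exact le_of_sq_le_sq h2 hs.le

theorem norm_dir (a : ℂ) : ‖dir a‖ = 1 := by
  unfold dir
  split_ifs <;> simp

theorem stmt_GEO : Stmt_GEO := by
  intro θ₀ hθ₀ hθ₀π
  refine ⟨min (1 / 16) (θ₀ / 8), by positivity, min_le_left _ _, ?_⟩
  intro s ρ θ θ' hs hs1 hρ hρ1 hθ hθ'π hθ' a ha haarg z hz
  have hs16 : s ≤ 1 / 16 := hs1.trans (min_le_left _ _)
  have hs8 : s ≤ θ₀ / 8 := hs1.trans (min_le_right _ _)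
  have hρ0 : 0 < ρ := by linarith
  set v : ℂ := z / a - 1 with hv
  set u : ℂ := dir a with hu
  have hzv : z = a * (1 + v) := by rw [hv]; field_simp; ring
  have hna : 0 < ‖a‖ := norm_pos_iff.2 ha
  have e1 : z - ast s ρ a = a * (v + (((1 - ρ ^ 2) * s / ρ : ℝ) : ℂ) * u) := by
    rw [hzv, ast, ← hu]; ring
  have e2 : z - a = a * v := by rw [hzv]; ring
  rw [e1, e2, norm_mul, norm_mul] at hz
  have hz' : ‖v + (((1 - ρ ^ 2) * s / ρ : ℝ) : ℂ) * u‖ ≤ ρ * ‖v‖ := by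
    have : ‖a‖ * ‖v + (((1 - ρ ^ 2) * s / ρ : ℝ) : ℂ) * u‖ ≤ ‖a‖ * (ρ * ‖v‖) := by
      calc _ ≤ _ := hz
        _ = _ := by ring
    exact le_of_mul_le_mul_left this hna
  have hg := geo_v v u s ρ hs hρ hρ1 (norm_dir a) hz'
  have hsρ : s / ρ ≤ 2 * s := by
    rw [div_le_iff₀ hρ0]; nlinarith
  have hsρ0 : 0 < s / ρ := by positivity
  have hvn : ‖v‖ ≤ s + s / ρ := by
    calc ‖v‖ = ‖(v + ((s / ρ : ℝ) : ℂ) * u) - ((s / ρ : ℝ) : ℂ) * u‖ := by congr 1; ring
      _ ≤ ‖v + ((s / ρ : ℝ) : ℂ) * u‖ + ‖((s / ρ : ℝ) : ℂ) * u‖ := norm_sub_le _ _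
      _ ≤ s + s / ρ := by
          rw [norm_mul, norm_dir a, Complex.norm_real, Real.norm_eq_abs, abs_of_pos hsρ0, mul_one]
          linarith
  have hv3 : ‖v‖ ≤ 3 * s := by linarith
  obtain ⟨harg6, hrepos, hn2, hlt, hne⟩ := arg_one_add v s hs hs16 hv3
  have hρv : ρ * ‖v‖ ≤ 2 * s := by
    calc ρ * ‖v‖ ≤ ρ * (s + s / ρ) := by gcongr
      _ = ρ * s + s := by field_simp
      _ ≤ 2 * s := by nlinarith
  -- bounds on real and imaginary part
  have hpi := Real.pi_pos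
  have harg := abs_le.1 harg6
  have hs1ρ : 0 ≤ s * (1 - ρ) := by apply mul_nonneg hs.le; linarith
  have hgap : s * (1 - ρ) ≤ s / ρ - s := by
    have : s / ρ - s = s * (1 - ρ) / ρ := by field_simp
    rw [this, le_div_iff₀ hρ0]
    nlinarith
  refine ⟨?_, ?_, ?_⟩
  · rcases lt_trichotomy a.im 0 with him | him | him
    · -- a.im < 0, u = -I
      have hu1 : u = -Complex.I := by
        rw [hu, dir, if_neg (by linarith), if_pos him]
      have h1 : |(v + ((s / ρ : ℝ) : ℂ) * u).im| ≤ s := (Complex.abs_im_le_norm _).trans hg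
      have h2 : (v + ((s / ρ : ℝ) : ℂ) * u).im = v.im - s / ρ := by
        rw [hu1, Complex.add_im, Complex.im_ofReal_mul]; simp; ring
      rw [h2] at h1
      have h3 := abs_le.1 h1
      have h4 : s * (1 - ρ) ≤ v.im := by linarith
      have h5 := arg_one_add_lower v s _ hs hs16 hv3 hs1ρ h4
      have ha1 : a.arg < 0 := Complex.arg_neg_iff.2 him
      have ha2 := (abs_le.1 haarg).1
      have hsum : a.arg + (1 + v).arg ∈ Set.Ioc (-Real.pi) Real.pi := by
        constructor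
        · linarith
        · have := (abs_lt.1 hlt).2
          linarith
      rw [hzv, Complex.arg_mul ha hne hsum, abs_le]
      constructor
      · linarith
      · linarith
    · -- a real
      have ha0 : a.arg = 0 := by
        have h1 : a.arg ≠ Real.pi := by
          intro h
          rw [h] at haarg
          have := (abs_le.1 haarg).2
          linarith
        have h2 : 0 ≤ a.arg := Complex.arg_nonneg_iff.2 (by linarith)
        by_contra hc
        have h3 : Real.sin a.arg = 0 := by rw [Complex.sin_arg, him]; simp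
        have h4 : 0 < Real.sin a.arg := Real.sin_pos_of_pos_of_lt_pi (lt_of_le_of_ne h2 (Ne.symm hc))
          (lt_of_le_of_ne (Complex.arg_le_pi a) h1)
        linarith
      have hsum : a.arg + (1 + v).arg ∈ Set.Ioc (-Real.pi) Real.pi := by
        have := abs_lt.1 hlt
        rw [ha0]
        constructor
        · linarith
        · linarith
      rw [hzv, Complex.arg_mul ha hne hsum, ha0, zero_add, abs_le]
      constructor
      · linarith
      · linarith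
    · -- a.im > 0, u = I
      have hu1 : u = Complex.I := by
        rw [hu, dir, if_pos him]
      have h1 : |(v + ((s / ρ : ℝ) : ℂ) * u).im| ≤ s := (Complex.abs_im_le_norm _).trans hg
      have h2 : (v + ((s / ρ : ℝ) : ℂ) * u).im = v.im + s / ρ := by
        rw [hu1, Complex.add_im, Complex.im_ofReal_mul]; simp
      rw [h2] at h1
      have h3 := abs_le.1 h1
      have h4 : v.im ≤ -(s * (1 - ρ)) := by linarith
      have h5 := arg_one_add_upper v s _ hs hs16 hv3 hs1ρ h4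
      have ha1 : 0 ≤ a.arg := Complex.arg_nonneg_iff.2 him.le
      have ha2 := (abs_le.1 haarg).2
      have hsum : a.arg + (1 + v).arg ∈ Set.Ioc (-Real.pi) Real.pi := by
        constructor
        · have := (abs_lt.1 hlt).1
          linarith
        · linarith
      rw [hzv, Complex.arg_mul ha hne hsum, abs_le]
      constructor
      · linarith
      · linarith
  · rw [hzv, norm_mul]
    nlinarith
  · rw [e2, norm_mul]
    calc ρ * (‖a‖ * ‖v‖) = (ρ * ‖v‖) * ‖a‖ := by ring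
      _ ≤ 2 * s * ‖a‖ := by gcongr

end Pool.Agent.Work.MP_ce2d68_st.helper63
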